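import Pool.Agent.Q45.RayTree.Main

/-!
# MP_16b74e_gt: completions of ray-generated ultrametric spaces and starlike rayless trees

For a metric space `V`, a graph `G` on the points of `V` and a labelling `l : V → [0, ∞)`,
`Generates G l` says that the distance of two different points is the largest label on the path of
`G` between them (ends included). `GenByRay V`: `V` is generated by a labelled ray.
`GenByStarlikeRaylessTree V`: `V` is generated by a labelled tree which has exactly one vertex of
degree greater than two and contains no ray.

Let `c` be the limit of the ray in (i). The points `x_n` of the ray fall into blocks: a block ends at
an `n` whose label is greater than all the later ones. The tree of (ii) joins `c` to the last point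
of each block and consecutive points of one block. Conversely a tree as in (ii) has finite legs, its
centre `c` is the only accumulation point, and the points `x ≠ c` are enumerated by decreasing
distance from `c`, then by legs, then by decreasing depth; in this order they form a labelled ray
with the same labels.
-/

set_option autoImplicit false

namespace Pool.Agent.Results.MP_16b74e_gt.RayCompletion

open Q45.RayTree

universe u

/-- **Q1 of MP_16b74e_gt, in the affirmative.** For every infinite ultrametric space `X`:
`X` is the completion of a totally bounded proper subset generated by a labelled ray if and only if
`X` is compact and generated by a labelled starlike rayless tree. -/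
theorem result (X : Type u) [MetricSpace X] [IsUltrametricDist X] [Infinite X] :
    (CompleteSpace X ∧ ∃ X₀ : Set X, X₀ ≠ Set.univ ∧ TotallyBounded X₀ ∧ Dense X₀ ∧ GenByRay X₀) ↔
      (CompactSpace X ∧ GenByStarlikeRaylessTree X) :=
  main X

end Pool.Agent.Results.MP_16b74e_gt.RayCompletion
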